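import Pool.Agent.TH710.WH.Hasse

/-! Rational points on rationally connected varieties given by nested sums of high powers. -/

set_option autoImplicit false

open AlgebraicGeometry CategoryTheory Pool.Agent.W602.GT Pool.Agent.TH710.ND
  Pool.Agent.TH710.SP Pool.Agent.TH710.WH

namespace Pool.Agent.Results.MP_e426f4_ag.NestedHassePrinciple

/-- Let `k` be a finitely generated field of characteristic zero (for example a number field), `X`
an integral scheme locally of finite type over `k` (for example smooth and proper), with function
field `K`. Let `k'` be an algebraically closed extension of `k`, and `L` the function field of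
`X_{k'}` (generated by `K` and `k'`, which are linearly disjoint over `k`). Suppose that `X` is
birational over `k` to a projective variety `V` in `P^n` (generic point `y`) such that `V_{k'}` is an
irreducible component of a projective variety given by equations, over `k'`, which are nested sums
of few high powers of linear forms. If `V_{k'}` is rationally connected then `X` is rational over
`k`, and it has a `k`-point. -/
theorem result {k : Type} [Field k] [CharZero k]
    (hk : ∃ S : Finset k, IntermediateField.adjoin ℚ (S : Set k) = ⊤)
    {k' : Type} [Field k'] [IsAlgClosed k'] [CharZero k'] [Algebra k k']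
    -- equations over `k'`
    {n : ℕ} (hn : 1 ≤ n) {ι : Type} {F : ι → MvPolynomial (Fin (n + 1)) k'} {s N H : ℕ}
    (hF : ∀ i, IsNested s N H (F i))
    (hN : n * ((H + 1) * (2 * s * (2 * s)) * ((2 * s + 1) *
      ((2 * s - 1) * (2 * s - 2) / 2))) + 1 ≤ N)
    -- a scheme over `k` with function field `K`
    (X : Scheme.{0}) [IsIntegral X] (f : X ⟶ Spec (CommRingCat.of k)) [LocallyOfFiniteType f]
    {K : Type} [Field K] [Algebra k K] (hK : HasFunctionField k K X f)
    -- the function field `L` of `X_{k'}`
    {L : Type} [Field L] [Algebra k L] [Algebra k' L] [Algebra K L] [IsScalarTower k k' L]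
    [IsScalarTower k K L] (hL : LinDisjoint k k' K L)
    -- a birational map to a projective variety over `k`, a component of `{F = 0}` over `k'`
    {y : Fin (n + 1) → K} (hgen : coords k y = ⊤) {w : ℕ}
    (hy : SubVar F L w (fun i => algebraMap K L (y i)))
    (hcomp : IsComponent F (fun i => algebraMap K L (y i)))
    (hc : RationallyConnected k' (fun i => algebraMap K L (y i))) :
    PurelyTranscendental k K ∧ ∃ s : Spec (CommRingCat.of k) ⟶ X, s ≫ f = 𝟙 _ := by
  have h := rational_of_connected hn hF (bnd_le hN) hL hgen hy hcomp hc
  exact ⟨h, exists_point (dense_of_rational hk h X f hK)⟩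

end Pool.Agent.Results.MP_e426f4_ag.NestedHassePrinciple
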