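import Pool.Agent.TH377.HB.Norm
import Pool.Agent.TH377.Hyp.Dens
import Pool.Agent.TH377.Hyp.Smooth
import Pool.Agent.TH377.Dyn.Box

/-!
# MP_e426f4_ag: norm equations without local solutions

Let `K` be a number field, `d` a prime number and `m ≥ 0`.  For `a ∈ O_K` and polynomials
`g, P_1, …, P_m ∈ O_K[T]` of degree `d`, and for `E = K(θ)`, `θ` a root of `g`, we consider the varieties

  `X : N_{E/K}(z_0 + z_1 θ + … + z_{d-1} θ^{d-1}) = a P_1(t)^{n_1} ⋯ P_m(t)^{n_m} ≠ 0`

with arbitrary exponents `n_j ≥ 0`.  They are smooth and geometrically rational (over an algebraic closure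
the equation is `y_1 y_2 ⋯ y_d = h(t)`), so their smooth proper models `X'` are rationally connected.
(A factor `Q(t)^d` on the right hand side can be removed, as it is the norm of `Q(t)`; so the exponents may
also be negative.)

We prove: for 100% of the vectors `(a, g, P_1, …, P_m)` the polynomials `g` and `P_j` are irreducible over
`K` of degree `d`, and there is a prime `v` of `K` such that for ALL exponents `n_j` and for ALL finite
extensions `M` of the completion `K_v` whose degree is not divisible by `d` the equation has no solution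
over `M`.  In particular `X(K_v)`, and so also `X'(K_v)`, is empty (a smooth variety over a local field
with a point over this field has a Zariski dense set of such points), and the degrees of all zero-cycles
on `X'` over `K_v` are divisible by `d`.  So `X'(A_K)` is empty, and the Brauer-Manin obstruction to the
Hasse principle is the only one for all these `X'`, for a trivial reason, but for 100% of the vectors and
for all exponents.  The exceptional set of vectors does not depend on the exponents.  It has density zero
in boxes (with respect to any integral basis), and in a stronger sense: for every `ε > 0` there is an ideal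
`I ≠ 0` such that the exceptional vectors lie in at most `ε #(O_K/I)^((m+1)(d+1)+1)` classes modulo `I`.

The Hasse principle for norm equations `N_{E/K}(z) = P(t)` with arbitrary `E` and `P` is a well-known open
case of the question (it is known under additional assumptions on `E` and `P`; for zero-cycles it is known
in general by Harpaz and Wittenberg).

Proof.  Let `v` be a prime of `K` that divides `a` exactly once, such that `g` and the `P_j` are
irreducible of degree `d` modulo `v`.  Let `M` be a finite extension of `K_v` with ramification index `e`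
and residue degree `f`, such that `d` does not divide `e f`.  Over the residue field of `M` the
polynomials `g` and `P_j` are still irreducible.  So the values of all norms and of all `P_j(t)` at the
valuation of `M` are divisible by `d`, but the value `e` of `a` is not.  The prime `v` exists for almost
all vectors, because the conditions hold for a proportion of at least
`(4d)^(-m-1) (1/N v - 1/(N v)²)` of all vectors modulo `v²`, and the sum of the `1/N v` diverges.
-/

set_option autoImplicit false
set_option maxHeartbeats 400000

open NumberField Filter Topology IsDedekindDomain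

namespace Pool.Agent.Results.MP_e426f4_ag.NormEquations

universe u w

/-- The coefficient of `Tⁱ` in the polynomial number `j`: the entry number `1 + j (d + 1) + i` of the
vector `c`.  The entry number `0` is `a`. -/
def coef {R : Type u} {k d : ℕ} (c : Fin (k * (d + 1) + 1) → R) (j : Fin k) (i : Fin (d + 1)) : R :=
  c (finProdFinEquiv (j, i)).succ

/-- The polynomial number `j`: `g` for `j = 0`, and `P_j` for `j ≥ 1`. -/
noncomputable def poly {R : Type u} [CommRing R] {k d : ℕ} (c : Fin (k * (d + 1) + 1) → R)
    (j : Fin k) : Polynomial R :=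
  ∑ i : Fin (d + 1), Polynomial.C (coef c j i) * Polynomial.X ^ (i : ℕ)

/-- The equation `N(z_0 + z_1 θ + … + z_{d-1} θ^{d-1}) = a P_1(t)^{n_1} ⋯ P_m(t)^{n_m}` over the field `M`,
where `φ` is a homomorphism from `R` to `M`; the norm is the product of the numbers
`z_0 + z_1 θ + … + z_{d-1} θ^{d-1}` over all roots `θ` of `g` in an algebraic closure of `M`. -/
def NormEquation {R : Type u} {M : Type w} [CommRing R] [Field M] (φ : R →+* M) (a : R)
    (g : Polynomial R) {d m : ℕ} (P : Fin m → Polynomial R) (n : Fin m → ℕ) (z : Fin d → M)
    (t : M) : Prop :=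
  (((g.map φ).map (algebraMap M (AlgebraicClosure M))).roots.map fun θ =>
    ∑ i : Fin d, algebraMap M (AlgebraicClosure M) (z i) * θ ^ (i : ℕ)).prod =
    algebraMap M (AlgebraicClosure M) (φ a * ∏ j, ((P j).map φ).eval t ^ n j)

/-- The vectors `c = (a, g, P_1, …, P_m)` that do not have the following property: `a ≠ 0`, the
polynomials `g` and `P_j` are irreducible over `K` of degree `d`, and there is a prime `v` of `K` such that
for all finite extensions `M` of `K_v` whose degree is not divisible by `d` and all exponents `n_j` the
norm equation has no solution over `M`. -/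
def Exceptional (K : Type u) [Field K] [NumberField K] (m d : ℕ) :
    Set (Fin ((m + 1) * (d + 1) + 1) → 𝓞 K) :=
  {c | ¬ (c 0 ≠ 0 ∧
    (∀ j, (poly c j).natDegree = d ∧ Irreducible ((poly c j).map (algebraMap (𝓞 K) K))) ∧
    ∃ v : HeightOneSpectrum (𝓞 K), ∀ (M : Type u) [Field M] [Algebra (v.adicCompletion K) M]
      [FiniteDimensional (v.adicCompletion K) M],
      ¬ d ∣ Module.finrank (v.adicCompletion K) M → ∀ (n : Fin m → ℕ) (z : Fin d → M) (t : M),
        ¬ NormEquation ((algebraMap (v.adicCompletion K) M).comp
          (algebraMap (𝓞 K) (v.adicCompletion K))) (c 0) (poly c 0) (fun j => poly c j.succ) n z t)}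

/-- Density zero: for every `ε > 0` there is an ideal `I ≠ 0` such that `E` lies in at most
`ε #(O_K/I)ᴺ` residue classes modulo `I`. -/
def DensityZero {K : Type u} [Field K] {N : ℕ} (E : Set (Fin N → 𝓞 K)) : Prop :=
  ∀ ε : ℝ, 0 < ε → ∃ I : Ideal (𝓞 K), I ≠ ⊥ ∧
    (Set.ncard ((fun (t : Fin N → 𝓞 K) i => Ideal.Quotient.mk I (t i)) '' E) : ℝ) ≤
      ε * (Nat.card (𝓞 K ⧸ I) : ℝ) ^ N

/-- The vectors all of whose entries have coordinates of absolute value at most `H` in the integral
basis `ω`. -/
def Box {K : Type u} [Field K] {J : Type w} (ω : Module.Basis J ℤ (𝓞 K)) (N H : ℕ) :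
    Set (Fin N → 𝓞 K) :=
  {c | ∀ i j, |ω.repr (c i) j| ≤ (H : ℤ)}

section proof

open Pool.Agent.TH377.Dyn Pool.Agent.TH377.Sup Pool.Agent.TH377.Hyp Pool.Agent.TH377.HB Polynomial

/-- the norm as a resultant -/
lemma res_of_norm {R : Type u} {M : Type w} [CommRing R] [Field M] (φ : R →+* M) (a : R)
    (g : R[X]) {r m : ℕ} (P : Fin m → R[X]) (n : Fin m → ℕ) (z : Fin (r + 1) → M) (t : M)
    (hg : (g.map φ).natDegree = r + 1) (h : NormEquation φ a g P n z t) :
    rs (g.map φ) (r + 1) z = (g.map φ).leadingCoeff ^ r *
      (φ a * ∏ j, ((P j).map φ).eval t ^ n j) := by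
  apply (algebraMap M (AlgebraicClosure M)).injective
  have hd : ((g.map φ).map (algebraMap M (AlgebraicClosure M))).natDegree = r + 1 := by
    rw [natDegree_map_eq_of_injective (algebraMap M (AlgebraicClosure M)).injective, hg]
  have h1 := resultant_eq_prod_eval ((g.map φ).map (algebraMap M (AlgebraicClosure M)))
    (pl fun i => algebraMap M (AlgebraicClosure M) (z i)) r (pl_natDegree _)
    (IsAlgClosed.splits _)
  rw [hd] at h1
  have h2 : ∀ θ : AlgebraicClosure M,
      (pl fun i => algebraMap M (AlgebraicClosure M) (z i)).eval θ =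
        ∑ i : Fin (r + 1), algebraMap M (AlgebraicClosure M) (z i) * θ ^ (i : ℕ) := by
    intro θ
    rw [pl, eval_finset_sum]
    refine Finset.sum_congr rfl fun i _ => ?_
    rw [eval_monomial]
  rw [rs_map, rs, h1, map_mul, map_pow]
  have h3 : ((g.map φ).map (algebraMap M (AlgebraicClosure M))).leadingCoeff =
      algebraMap M (AlgebraicClosure M) (g.map φ).leadingCoeff :=
    leadingCoeff_map_of_injective (algebraMap M (AlgebraicClosure M)).injective _
  rw [h3]
  congr 1
  rw [← h]
  congr 1
  exact Multiset.map_congr rfl fun θ _ => h2 θ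

/-- the vectors with a good prime are not exceptional -/
theorem good {K : Type u} [Field K] [NumberField K] {m d : ℕ} (hd : d.Prime)
    (c : Fin ((m + 1) * (d + 1) + 1) → 𝓞 K) (v : HeightOneSpectrum (𝓞 K)) (h1 : c 0 ∈ v.asIdeal)
    (h2 : c 0 ∉ v.asIdeal ^ 2) (h3 : ∀ j, IrrMod v d fun i => coef c j i) :
    c ∉ Exceptional K m d := by
  intro hexc
  apply hexc
  have hlast : ∀ j, coef c j (Fin.last d) ≠ 0 := by
    intro j h
    apply (h3 j).1
    change coef c j (Fin.last d) ∈ v.asIdeal
    rw [h]
    exact zero_mem _
  have hpd : ∀ j, (poly c j).natDegree = d := fun j =>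
    pol_natDegree (fun i : Fin (d + 1) => coef c j i) (hlast j)
  have hlc : ∀ j, (poly c j).leadingCoeff ∉ v.asIdeal := by
    intro j
    have e1 : (poly c j).leadingCoeff = coef c j (Fin.last d) :=
      pol_leadingCoeff (fun i : Fin (d + 1) => coef c j i) (hlast j)
    rw [e1]
    exact (h3 j).1
  have hmod : ∀ j, (poly c j).map (Ideal.Quotient.mk v.asIdeal) =
      pol fun i => Ideal.Quotient.mk v.asIdeal (coef c j i) := fun j => pol_map _ _
  have hirr0 : ∀ j, Irreducible ((poly c j).map (Ideal.Quotient.mk v.asIdeal)) := by
    intro j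
    rw [hmod]
    exact (h3 j).2
  refine ⟨?_, fun j => ⟨hpd j, irr_of_mod v (poly c j) (by rw [hpd]; exact hd.pos) (hlc j)
    (hirr0 j)⟩, v, ?_⟩
  · intro h
    rw [h] at h2
    exact h2 (zero_mem _)
  intro M _ _ _ hM n z t heq
  have hcz : CharZero (v.adicCompletion K) :=
    charZero_of_injective_algebraMap (algebraMap K (v.adicCompletion K)).injective
  set ι := algebraMap (𝓞 K) (v.adicCompletionIntegers K) with hι
  have hirr : ∀ j, Irreducible (((poly c j).map ι).map (IsLocalRing.residue _)) :=
    fun j => irr_red v _ (hirr0 j)
  have hdeg : ∀ j, (((poly c j).map ι).map (IsLocalRing.residue _)).natDegree = d := by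
    intro j
    rw [deg_red, hmod]
    exact pol_natDegree _ fun h => (h3 j).1 (Ideal.Quotient.eq_zero_iff_mem.1 h)
  have hdeg' : ∀ j, ((poly c j).map ι).natDegree = d := by
    intro j
    refine le_antisymm ?_ ?_
    · exact natDegree_map_le.trans (hpd j).le
    · exact (hdeg j).symm.le.trans natDegree_map_le
  obtain ⟨r, rfl⟩ : ∃ r, d = r + 1 := ⟨d - 1, by have := hd.pos; omega⟩
  have hu : IsUnit (ι (poly c 0).leadingCoeff) := by
    by_contra h
    exact hlc 0 ((red_eq_zero v _).1
      ((IsLocalRing.residue_eq_zero_iff _).2 ((IsLocalRing.mem_maximalIdeal _).2 h)))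
  have hinj : Function.Injective ((algebraMap (v.adicCompletion K) M).comp
      (algebraMap (𝓞 K) (v.adicCompletion K))) := by
    refine (algebraMap (v.adicCompletion K) M).injective.comp ?_
    exact (algebraMap K (v.adicCompletion K)).injective.comp
      (FaithfulSMul.algebraMap_injective (𝓞 K) K)
  have key := norm_point (K := v.adicCompletion K) (M := M) r (r + 1) m hd (Nat.lt_succ_self r) hM
    (ι (c 0)) (irr_comp v (c 0) h1 h2) (fun j => (poly c j).map ι) hdeg' hdeg hirr n
    (ι (poly c 0).leadingCoeff ^ r) (hu.pow r) z t
  have h5 := res_of_norm _ _ _ _ _ _ _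
    (by rw [natDegree_map_eq_of_injective hinj, hpd]) heq
  apply key
  rw [leadingCoeff_map_of_injective hinj] at h5
  have hmap : ∀ j, ((poly c j).map ι).map ((algebraMap (v.adicCompletion K) M).comp
      (algebraMap (v.adicCompletionIntegers K) (v.adicCompletion K))) =
      (poly c j).map ((algebraMap (v.adicCompletion K) M).comp
        (algebraMap (𝓞 K) (v.adicCompletion K))) := by
    intro j
    rw [Polynomial.map_map]
    rfl
  rw [hmap, h5, map_pow]
  simp only [hmap]
  rfl

end proof

/-- Let `K` be a number field, `d` a prime number and `m ≥ 0`.  For all vectors `(a, g, P_1, …, P_m)` over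
`O_K`, the `g` and `P_j` being polynomials of degree `d`, outside a set of density zero, the polynomials `g`
and `P_j` are irreducible over `K`, and there is a prime `v` of `K` such that for all exponents `n_j` and
all finite extensions `M` of `K_v` whose degree is not divisible by `d` the norm equation
`N(z_0 + z_1 θ + … + z_{d-1} θ^{d-1}) = a P_1(t)^{n_1} ⋯ P_m(t)^{n_m}`, `θ` a root of `g`, has no solution
over `M`. -/
theorem result (K : Type u) [Field K] [NumberField K] (m d : ℕ) (hd : d.Prime) :
    DensityZero (Exceptional K m d) ∧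
      ∀ (J : Type w) [Fintype J] (ω : Module.Basis J ℤ (𝓞 K)),
        Tendsto (fun H : ℕ => ((Exceptional K m d ∩ Box ω ((m + 1) * (d + 1) + 1) H).ncard : ℝ) /
          ((Box ω ((m + 1) * (d + 1) + 1) H).ncard : ℝ)) atTop (𝓝 0) := by
  have key : Pool.Agent.TH120.Sec.DZ ((m + 1) * (d + 1) + 1) (Exceptional K m d) := by
    refine Pool.Agent.TH377.Dyn.DZ.mono
      (Pool.Agent.TH377.Hyp.dz_blocks K (m + 1) d hd.two_le) ?_
    rintro c hc ⟨v, h1, h2, h3⟩
    exact good hd c v h1 h2 h3 hc
  exact ⟨key, fun J _ ω => Pool.Agent.TH377.Dyn.box_tendsto _ key ω⟩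

end Pool.Agent.Results.MP_e426f4_ag.NormEquations
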