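import Pool.Agent.TH204.HP.H20

/-! # Brauer-Manin obstruction for almost all fibrations `yᵢ² - aᵢ zᵢ² = bᵢ t (f(t) + k)` in products of conics

Let `f` be any integral polynomial of degree `d ≥ 1` and let `aᵢ`, `bᵢ` be nonzero integers, `i < r`. A smooth proper model `X_k`
of the variety `W_k : yᵢ² - aᵢ zᵢ² = bᵢ t (f(t) + k) ≠ 0`, `i < r`, is fibred over the line in products of `r` conics; these
satisfy the Hasse principle and weak approximation. The fibres over `0`, over the roots of `f + k` and, if `d` is even, over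
infinity are degenerate. If `d` is even then the algebras `(aᵢ, t)` are unramified on `X_k`, and for `f + k` irreducible such that
the root fields of `f + k` and of the `X² - aᵢ` are linearly disjoint they generate the vertical part of `Br X_k / Br ℚ`.
If `d` is odd then this vertical part is trivial.

Let `T` be a finite set of primes with the small and the bad ones. We show that for all but `X / (log X) ^ U` of the `|k| ≤ X`
all families of points of `W_k(ℚ_p)`, `p` in `T`, and of a real point, can be approximated by rational points of `W_k` (at the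
real place we only get that `t` has the right sign), if the sum of the invariants of each `(aᵢ, t)` at these points is `0` or if
`d` is odd.

Proof. Multiply the given values of `t` by squares so that they become close to an integer `c` which is a product of primes of
`T` and of one large prime `l`, by Dirichlet's theorem. The product formula for `(aᵢ, c)` shows that `(aᵢ, c)` is trivial at `l`.
We look for `t = c v²`. Then `bᵢ t (f(t) + k)` is `bᵢ c (f(c v²) + k)` up to squares, `f(c v²) + k` is of the form considered in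
my `MP_d4938b_nt.AlmostAllConicBundles`, and there is a local point at `l` with `v` large. As there are only finitely many `c`
the main theorem of the proof there applies: for almost all `k` there are `v` near the given local points such that
`f(c v²) + k` is a prime up to a fixed divisor composed of primes of `T` and `l` (a second moment over `k`).
-/

set_option autoImplicit false

namespace Pool.Agent.Results.MP_e426f4_ag.ProductsOfConics

open Finset Polynomial Filter Topology

instance (p : Nat.Primes) : Fact (p : ℕ).Prime := ⟨p.2⟩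

/-- the point `(t, y, z)` with coordinates in the field `F` lies on `W_k : yᵢ² - aᵢ zᵢ² = bᵢ t (f(t) + k) ≠ 0`, `i < r` -/
def OnW {r : ℕ} (f : ℤ[X]) (a b : Fin r → ℤ) (k : ℤ) {F : Type} [Field F] (t : F) (y z : Fin r → F) : Prop :=
  t ≠ 0 ∧ aeval t f + (k : F) ≠ 0 ∧ ∀ i, y i ^ 2 - (a i : F) * z i ^ 2 = (b i : F) * (t * (aeval t f + (k : F)))

/-- `t` is of the form `u² - a v²` with `u`, `v` in the field `F`: for `t ≠ 0` this says that the quaternion algebra `(a, t)`
over `F` splits -/
def Norm (a : ℤ) {F : Type} [Field F] (t : F) : Prop := ∃ u v : F, u ^ 2 - (a : F) * v ^ 2 = t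

open Classical in
/-- the sum of the invariants of the algebra `(a, t)` at the points with the coordinates `t_p`, `p` in `T`, and `t_∞ = tr` is `0` -/
def InvSumZero (a : ℤ) (T : Finset Nat.Primes) (t : (p : Nat.Primes) → ℚ_[(p : ℕ)]) (tr : ℝ) : Prop :=
  Even (#{p ∈ T | ¬ Norm a (t p)} + (if Norm a tr then 0 else 1))

/-- weak approximation of level `N` at the primes of `T` of the points orthogonal to the algebras `(aᵢ, t)`: for all families of
`p`-adic points `(t, y, z)` of `W_k`, `p` in `T`, with coordinates of absolute value at most `p ^ N`, `|t| ≥ p ^ (-N)` and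
`|f(t) + k| ≥ p ^ (-N)`, and for all real points of `W_k`, if the degree of `f` is odd or for all `i` the sum of the invariants of
`(aᵢ, t)` is `0`, then there is a rational point `(s, Y, Z)` of `W_k` whose coordinates are at the distance at most `p ^ (-N)`
from those of the given point, for all `p` in `T`, and such that `s` has the same sign as the coordinate `t` of the real
point. -/
def WB {r : ℕ} (f : ℤ[X]) (a b : Fin r → ℤ) (T : Finset Nat.Primes) (N : ℕ) (k : ℤ) : Prop :=
  ∀ (t : (p : Nat.Primes) → ℚ_[(p : ℕ)]) (y z : (p : Nat.Primes) → Fin r → ℚ_[(p : ℕ)]) (tr : ℝ) (yr zr : Fin r → ℝ),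
    (∀ p ∈ T, OnW f a b k (t p) (y p) (z p) ∧ ‖t p‖ ≤ ((p : ℕ) : ℝ) ^ N ∧ (∀ i, ‖y p i‖ ≤ ((p : ℕ) : ℝ) ^ N) ∧
      (∀ i, ‖z p i‖ ≤ ((p : ℕ) : ℝ) ^ N) ∧ (((p : ℕ) : ℝ) ^ N)⁻¹ ≤ ‖t p‖ ∧
      (((p : ℕ) : ℝ) ^ N)⁻¹ ≤ ‖aeval (t p) f + (k : ℚ_[(p : ℕ)])‖) →
    OnW f a b k tr yr zr → (Odd f.natDegree ∨ ∀ i, InvSumZero (a i) T t tr) →
    ∃ (s : ℚ) (Y Z : Fin r → ℚ), OnW f a b k s Y Z ∧ 0 < (s : ℝ) * tr ∧
      ∀ p ∈ T, ‖(s : ℚ_[(p : ℕ)]) - t p‖ ≤ (((p : ℕ) : ℝ) ^ N)⁻¹ ∧
        ∀ i, ‖(Y i : ℚ_[(p : ℕ)]) - y p i‖ ≤ (((p : ℕ) : ℝ) ^ N)⁻¹ ∧ ‖(Z i : ℚ_[(p : ℕ)]) - z p i‖ ≤ (((p : ℕ) : ℝ) ^ N)⁻¹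

open Classical in
theorem result (r : ℕ) (f : ℤ[X]) (hf : 1 ≤ f.natDegree) (a b : Fin r → ℤ) (ha : ∀ i, a i ≠ 0) (hb : ∀ i, b i ≠ 0)
    (T : Finset Nat.Primes)
    (hT : ∀ p : Nat.Primes, ((p : ℕ) ≤ 2 * f.natDegree ∨ ((p : ℕ) : ℤ) ∣ f.leadingCoeff * ∏ i, (a i * b i)) → p ∈ T)
    (N U : ℕ) : ∃ X₀ : ℕ, ∀ X : ℕ, X₀ ≤ X →
      (#{k ∈ Icc (-(X : ℤ)) X | ¬ WB f a b T N k} : ℝ) ≤ X / Real.log X ^ U := by
  obtain ⟨X0, h⟩ := Pool.Agent.TH204.HP.thmBr f hf a b ha hb T (fun p hp => by
    apply hT p
    rcases hp with h | h | ⟨i, h⟩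
    · exact Or.inl h
    · exact Or.inr (h.mul_right _)
    · refine Or.inr (Dvd.dvd.mul_left (dvd_trans ?_ (dvd_prod_of_mem (fun i => a i * b i) (mem_univ i))) _)
      rcases h with h | h
      · exact h.mul_right _
      · exact h.mul_left _) N U
  refine ⟨X0, fun X hX => le_trans ?_ (h X hX)⟩
  have hsub : ((Icc (-(X : ℤ)) X).filter (fun k => ¬ WB f a b T N k)) ⊆
      ((Icc (-(X : ℤ)) X).filter (fun k => ¬ Pool.Agent.TH204.HP.WBr f a b T N k)) := by
    intro k hk
    rw [mem_filter] at hk ⊢
    refine ⟨hk.1, fun hw => hk.2 ?_⟩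
    intro t y z tr yr zr hloc hre hpar
    refine hw t y z tr yr zr hloc hre ?_
    rcases hpar with h | h
    · exact Or.inl h
    · right
      intro i
      have e1 : T.filter (fun p : Nat.Primes => ¬ Norm (a i) (t p)) =
          T.filter (fun p : Nat.Primes => ¬ Pool.Agent.W313.BMX.Splits (a i : ℚ_[(p : ℕ)]) (t p)) := by
        apply filter_congr
        intro p hp
        rw [← Pool.Agent.TH204.HP.conic_iff _ _ (by exact_mod_cast ha i) (hloc p hp).1.1]
        rfl
      have e2 : (if Norm (a i) tr then 0 else 1) = (if a i < 0 ∧ tr < 0 then 1 else 0) := by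
        have e3 : Norm (a i) tr ↔ ¬ (a i < 0 ∧ tr < 0) := by
          constructor
          · rintro ⟨u, v, huv⟩ ⟨h1, h2⟩
            have h3 : (a i : ℝ) < 0 := by exact_mod_cast h1
            nlinarith [sq_nonneg u, sq_nonneg v]
          · intro h1
            rw [not_and_or, not_lt, not_lt] at h1
            rcases h1 with h1 | h1
            · have h3 : (0 : ℝ) < a i := by exact_mod_cast lt_of_le_of_ne h1 (Ne.symm (ha i))
              have h4 : √(a i : ℝ) ^ 2 = a i := Real.sq_sqrt h3.le
              have h5 : √(a i : ℝ) ≠ 0 := (Real.sqrt_pos.2 h3).ne'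
              refine ⟨(tr + 1) / 2, (tr - 1) / (2 * √(a i : ℝ)), ?_⟩
              rw [div_pow, div_pow, mul_pow, h4]
              field_simp
              ring
            · exact ⟨√tr, 0, by rw [Real.sq_sqrt h1]; ring⟩
        by_cases h1 : a i < 0 ∧ tr < 0
        · rw [if_neg (fun h2 => (e3.1 h2) h1), if_pos h1]
        · rw [if_pos (e3.2 h1), if_neg h1]
      have h6 := h i
      unfold InvSumZero at h6
      rw [e1, e2] at h6
      exact h6
  exact_mod_cast card_le_card hsub

end Pool.Agent.Results.MP_e426f4_ag.ProductsOfConics
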